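import Pool.Agent.P.MP_358d01_co.Fur.TMOM
import Pool.Agent.P.MP_358d01_co.Fur.TIND
import Pool.Agent.P.MP_358d01_co.Fur.TPLAY
import Pool.Agent.P.MP_358d01_co.Fur.TLEAF
import Pool.Agent.P.MP_358d01_co.Fur.TPRN
import Pool.Agent.P.MP_358d01_co.Fur.TAON
import Pool.Agent.P.MP_358d01_co.Fur.TSKIP
import Pool.Agent.P.MP_358d01_co.Fur.TBRA
import Pool.Agent.P.MP_358d01_co.Fur.TINI
import Pool.Agent.P.MP_358d01_co.Fur.TCERT
import Pool.Agent.P.MP_358d01_co.Fur.TSLO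
import Pool.Agent.P.MP_358d01_co.Fur.TNUM
import Pool.Agent.P.MP_358d01_co.Fur.TGAD
import Pool.Agent.P.MP_358d01_co.Fur.TONE
import Pool.Agent.P.MP_358d01_co.Fur.TPAR
import Pool.Agent.P.MP_358d01_co.Fur.TGRP
import Pool.Agent.P.MP_358d01_co.Fur.TCLS
import Pool.Agent.P.MP_358d01_co.Fur.TALL
import Pool.Agent.P.MP_358d01_co.AD.Geo

set_option autoImplicit false

namespace Pool.Agent.Results.MP_358d01_co.AllDims

open Pool.Agent.Fur in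
/-- In every dimension `d ≥ 3` the ratio of `log f_d(n)` and `n ^ (1 / (d - 1))` tends to
infinity. -/
theorem result :
    ∀ d : ℕ, 3 ≤ d → ∀ C : ℝ, ∃ N₀ : ℕ, ∀ n : ℕ, N₀ ≤ n →
      ∃ S : Finset (EuclideanSpace ℝ (Fin d)),
        (∀ T ⊆ S, T.card ≤ d + 1 → AffineIndependent ℝ
          (fun x : (T : Set (EuclideanSpace ℝ (Fin d))) => (x : EuclideanSpace ℝ (Fin d)))) ∧
        Real.exp (C * (n : ℝ) ^ (1 / ((d : ℝ) - 1))) ≤ (S.card : ℝ) ∧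
        ∀ T ⊆ S, n ≤ T.card →
          ∃ p ∈ T, p ∈ convexHull ℝ ((T : Set (EuclideanSpace ℝ (Fin d))) \ {p}) := by
  intro d hd C
  obtain ⟨e, rfl⟩ := Nat.exists_eq_add_of_le hd
  obtain ⟨N₀, hN⟩ := AD.all_dims
    (p_GAD (p_PLAY p_MOM p_IND) p_LEAF (p_CERT p_PRN (p_SKIP p_AON) (p_BRA p_AON) p_INI) p_SLO
      p_NUM) p_PAR (p_ALL (p_CLS (p_GRP p_ONE))) e C
  refine ⟨N₀, fun n hn => ?_⟩
  obtain ⟨S, hgp, he, hconv⟩ := hN n hn
  refine ⟨S, hgp, he, fun T hT hc => ?_⟩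
  by_contra hno
  push Not at hno
  exact absurd (hconv T hT hno) (not_lt.2 hc)

end Pool.Agent.Results.MP_358d01_co.AllDims
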