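import Pool.Agent.P.MP_358d01_co.H5.Final

set_option autoImplicit false

namespace Pool.Agent.Results.MP_358d01_co.SharpExponent

open Pool.Agent.P.MP_358d01_co

/-- For every d ≥ 3 there is C such that, for all large n, every finite set in general position in
R^d with at least exp(C n^(1/(d-1)) (log n)^3) points contains n points in convex position. -/
theorem result :
    ∀ d : ℕ, 3 ≤ d → ∃ C : ℝ, ∃ N₀ : ℕ, ∀ n : ℕ, N₀ ≤ n →
      ∀ S : Finset (EuclideanSpace ℝ (Fin d)),
        (∀ T ⊆ S, T.card ≤ d + 1 →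
          AffineIndependent ℝ
            (fun x : (T : Set (EuclideanSpace ℝ (Fin d))) => (x : EuclideanSpace ℝ (Fin d)))) →
        Real.exp (C * (n : ℝ) ^ (1 / ((d : ℝ) - 1)) * Real.log n ^ 3) ≤ (S.card : ℝ) →
        ∃ T ⊆ S, T.card = n ∧
          ∀ p ∈ T, p ∉ convexHull ℝ ((T.erase p : Finset (EuclideanSpace ℝ (Fin d))) :
            Set (EuclideanSpace ℝ (Fin d))) := by
  intro d hd
  obtain ⟨k, rfl⟩ : ∃ k, d = k + 1 := ⟨d - 1, by omega⟩
  obtain ⟨C, N, h⟩ := H5.final k (by omega)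
  refine ⟨C, N, fun n hn S hS hc => ?_⟩
  have hE : Module.finrank ℝ (EuclideanSpace ℝ (Fin (k + 1))) = k + 1 := by simp
  obtain ⟨T, hT, h1, h2⟩ := h n hn hE S (H5.gp_of_affine (by rw [hE]; exact hS)) (by simpa using hc)
  obtain ⟨T', hT', h3⟩ := Finset.exists_subset_card_eq h2.le
  exact ⟨T', hT'.trans hT, h3, fun p hp hc => h1 p (hT' hp)
    (convexHull_mono (Finset.coe_subset.2 (Finset.erase_subset_erase _ hT')) hc)⟩

end Pool.Agent.Results.MP_358d01_co.SharpExponent
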